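import Pool.Agent.Q96.HM.WD

set_option autoImplicit false

namespace Pool.Agent.Q96.HM

open Complex Set Metric Filter Topology Pool.Agent.Q75.HM

open scoped Real ComplexConjugate

lemma LD_HS (s c : ℝ) : LD (HS s c) := by
  refine ⟨(isOpen_lt Complex.continuous_re continuous_const).inter
    (isOpen_lt Complex.continuous_im.abs continuous_const), ?_⟩
  rintro z ⟨h1, h2⟩ w hw1 hw2
  exact ⟨lt_of_le_of_lt hw1 h1, lt_of_le_of_lt hw2 h2⟩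

lemma LD_union {G H : Set ℂ} (hG : LD G) (hH : LD H) : LD (G ∪ H) := by
  refine ⟨hG.1.union hH.1, ?_⟩
  rintro z (hz | hz) w h1 h2
  · exact Or.inl (hG.2 z hz w h1 h2)
  · exact Or.inr (hH.2 z hz w h1 h2)

/-- translates of the doubled domain -/
lemma Dm_shift {G : Set ℂ} {m c M : ℝ} (a : ℝ) (hG : LD G) (hc : 0 < c)
    (hstrip : ∀ z : ℂ, |z.im| < c → z ∈ Wd G m) (hb : ∀ z ∈ Wd G m, |z.im| < M) :
    Dm {z : ℂ | z - (a : ℂ) ∈ Wd G m} := by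
  refine ⟨(isOpen_Wd hG).preimage (by fun_prop), ?_, ?_⟩
  · apply sc_of_vert
    · intro x
      apply hstrip
      simpa using hc
    · intro z hz w h1 h2
      refine Wd_vert hG (z := z - (a : ℂ)) hz ?_ ?_
      · rw [sub_re, sub_re, h1]
      · simpa using h2
  · intro h
    have h1 : ((M : ℂ) * I) ∈ {z : ℂ | z - (a : ℂ) ∈ Wd G m} := by rw [h]; exact mem_univ _
    have h2 := hb _ h1
    have h3 : ((M : ℂ) * I - (a : ℂ)).im = M := by simp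
    rw [h3] at h2
    exact absurd h2 (not_lt.2 (le_abs_self M))

theorem t_FK (hQB : S_QB) (hQT : S_QT) (hSM : S_SM) (hHAR : S_HAR) (hE1 : S_E1) (hWD : S_WD)
    (hWI : S_WI) : S_FK := by
  intro G t τ c δ M hG hGb hτ hτt hδ hδc hHS ht16 hτ16
  have hc : 0 < c := lt_of_lt_of_le hδ hδc
  have ht : 0 ≤ t := by linarith
  set G1 : Set ℂ := G ∪ HS t c with hG1def
  have hG1 : LD G1 := LD_union hG (LD_HS t c)
  have hb1 : ∀ z ∈ G1, |z.im| < max M c := by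
    rintro z (hz | hz)
    · exact lt_of_lt_of_le (hGb z hz).2 (le_max_left _ _)
    · exact lt_of_lt_of_le hz.2 (le_max_right _ _)
  have hb2 : ∀ z ∈ G1 ∪ HS (t + τ) c, |z.im| < max M c := by
    rintro z (hz | hz)
    · exact hb1 z hz
    · exact lt_of_lt_of_le hz.2 (le_max_right _ _)
  obtain ⟨hDA, hsA, hsymA, hbA⟩ := hWD G1 t c (max M c) hG1 hc subset_union_right hb1
  obtain ⟨hDV, -, -, -⟩ := hWD (G1 ∪ HS (t + τ) c) (t + τ) c (max M c)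
    (LD_union hG1 (LD_HS _ _)) hc subset_union_right hb2
  obtain ⟨-, hsW, -, hbW⟩ := hWD G (t - τ) c M hG hc hHS (fun z hz => (hGb z hz).2)
  obtain ⟨hw1, hw2, hw3⟩ := hWI G t τ c hG (fun z hz => (hGb z hz).1) hτ hc hHS
  have hDB : Dm {z : ℂ | z - ((2 * τ : ℝ) : ℂ) ∈ Wd G1 t} := Dm_shift (2 * τ) hG1 hc hsA hbA
  have hDU : Dm {z : ℂ | z - ((2 * τ : ℝ) : ℂ) ∈ Wd G (t - τ)} := Dm_shift (2 * τ) hG hc hsW hbW
  have hreal : ∀ x : ℝ, ((x : ℝ) : ℂ) ∈ Wd G1 t := fun x => hsA _ (by simpa using hc)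
  have hzero : (0 : ℂ) ∈ Wd G1 t := by simpa using hreal 0
  have hpA : ((t + τ : ℝ) : ℂ) ∈ Wd G1 t := hreal _
  have hpB : ((t + τ : ℝ) : ℂ) ∈ {z : ℂ | z - ((2 * τ : ℝ) : ℂ) ∈ Wd G1 t} := by
    have : ((t + τ : ℝ) : ℂ) - ((2 * τ : ℝ) : ℂ) = ((t - τ : ℝ) : ℂ) := by push_cast; ring
    change ((t + τ : ℝ) : ℂ) - ((2 * τ : ℝ) : ℂ) ∈ Wd G1 t
    rw [this]
    exact hreal _
  have h0B : (0 : ℂ) ∈ {z : ℂ | z - ((2 * τ : ℝ) : ℂ) ∈ Wd G1 t} := by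
    have : (0 : ℂ) - ((2 * τ : ℝ) : ℂ) = ((-(2 * τ) : ℝ) : ℂ) := by push_cast; ring
    change (0 : ℂ) - ((2 * τ : ℝ) : ℂ) ∈ Wd G1 t
    rw [this]
    exact hreal _
  have hSM' := hSM _ _ _ _ ((t + τ : ℝ) : ℂ) 0 hDU hDV hDA hDB hw1 hw2 hw3 ⟨hpA, hpB⟩ ⟨hzero, h0B⟩
  have hball : ∀ x : ℝ, ball (x : ℂ) δ ⊆ Wd G1 t := by
    intro x w hw
    apply hsA
    rw [mem_ball, dist_eq_norm] at hw
    have h1 := Complex.abs_im_le_norm (w - x)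
    rw [sub_im, Complex.ofReal_im, sub_zero] at h1
    linarith
  have hn2 : ‖(0 : ℂ) - ((2 * τ : ℝ) : ℂ)‖ = 2 * τ := by
    rw [zero_sub, norm_neg, Complex.norm_real, Real.norm_of_nonneg (by linarith)]
  have hHAR' := hHAR (Wd G1 t) {z : ℂ | z - ((2 * τ : ℝ) : ℂ) ∈ Wd G (t - τ)} ((t + τ : ℝ) : ℂ)
    ((2 * τ : ℝ) : ℂ) 0 δ hDA hDU hw1 hpA hδ (hball _)
    (by rw [mem_ball, dist_eq_norm, hn2]; linarith)
  rw [hn2] at hHAR'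
  -- translations
  have eU : qn {z : ℂ | z - ((2 * τ : ℝ) : ℂ) ∈ Wd G (t - τ)} ((t + τ : ℝ) : ℂ) ((2 * τ : ℝ) : ℂ) =
      qn (Wd G (t - τ)) ((t - τ : ℝ) : ℂ) 0 := by
    have h := hQT.1 (Wd G (t - τ)) ((2 * τ : ℝ) : ℂ) ((t - τ : ℝ) : ℂ) 0
    have e1 : ((t - τ : ℝ) : ℂ) + ((2 * τ : ℝ) : ℂ) = ((t + τ : ℝ) : ℂ) := by push_cast; ring
    rw [e1, zero_add] at h
    exact h
  have eB : qn {z : ℂ | z - ((2 * τ : ℝ) : ℂ) ∈ Wd G1 t} ((t + τ : ℝ) : ℂ) 0 =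
      qn (Wd G1 t) ((t - τ : ℝ) : ℂ) ((-(2 * τ) : ℝ) : ℂ) := by
    have h := hQT.1 (Wd G1 t) ((2 * τ : ℝ) : ℂ) ((t - τ : ℝ) : ℂ) ((-(2 * τ) : ℝ) : ℂ)
    have e1 : ((t - τ : ℝ) : ℂ) + ((2 * τ : ℝ) : ℂ) = ((t + τ : ℝ) : ℂ) := by push_cast; ring
    have e2 : ((-(2 * τ) : ℝ) : ℂ) + ((2 * τ : ℝ) : ℂ) = 0 := by push_cast; ring
    rw [e1, e2] at h
    exact h
  rw [eU] at hHAR'
  rw [eB] at hSM'
  obtain ⟨hE, hE'⟩ := hE1 (Wd G1 t) t τ δ hDA (fun z hz => (hsymA z hz).1) hδ ht ht16 hτ hτ16 (hball t)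
  -- positivity
  have px : 0 < qn (Wd G1 t) ((t + τ : ℝ) : ℂ) ((2 * τ : ℝ) : ℂ) :=
    (hQB (Wd G1 t) _ _ hDA hpA (hreal _)).2.1
  have pA0 : 0 < qn (Wd G1 t) ((t + τ : ℝ) : ℂ) 0 := (hQB (Wd G1 t) _ _ hDA hpA hzero).2.1
  have py : 0 < qn (Wd G (t - τ)) ((t - τ : ℝ) : ℂ) 0 := by
    rw [← eU]
    exact (hQB _ _ _ hDU (hw1 hpA) (hw1 (hreal _))).2.1
  have pB : 0 < qn (Wd G1 t) ((t - τ : ℝ) : ℂ) ((-(2 * τ) : ℝ) : ℂ) :=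
    (hQB (Wd G1 t) _ _ hDA (hreal _) (hreal _)).2.1
  have pV : 0 ≤ qn (Wd (G1 ∪ HS (t + τ) c) (t + τ)) ((t + τ : ℝ) : ℂ) 0 :=
    (hQB _ _ _ hDV (hw3 ⟨hpA, hpB⟩) (hw3 ⟨hzero, h0B⟩)).2.1.le
  set x := qn (Wd G1 t) ((t + τ : ℝ) : ℂ) ((2 * τ : ℝ) : ℂ)
  set y := qn (Wd G (t - τ)) ((t - τ : ℝ) : ℂ) 0
  set qA := qn (Wd G1 t) ((t + τ : ℝ) : ℂ) 0
  set qB := qn (Wd G1 t) ((t - τ : ℝ) : ℂ) ((-(2 * τ) : ℝ) : ℂ)
  set qV := qn (Wd (G1 ∪ HS (t + τ) c) (t + τ)) ((t + τ : ℝ) : ℂ) 0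
  set qU := qn {z : ℂ | z - ((2 * τ : ℝ) : ℂ) ∈ Wd G (t - τ)} ((t + τ : ℝ) : ℂ) 0
  set q := qn (Wd G1 t) (t : ℂ) 0
  have hδτ : 0 < δ - 2 * τ := by linarith
  have he : (δ + 2 * τ) / (δ - 2 * τ) = 1 + 4 * τ / (δ - 2 * τ) := by
    field_simp
    ring
  set f := 4 * τ / (δ - 2 * τ) with hf
  have hf0 : 0 ≤ f := by positivity
  rw [he] at hHAR'
  have pyx : 0 < y / x := div_pos py px
  have pxy : 0 < x / y := div_pos px py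
  -- qV ≤ qB * (x / y) ^ (1 + f)
  have k1 : qA * (y / x) ^ (1 + f) ≤ qU := by
    rw [le_div_iff₀ pA0] at hHAR'
    linarith
  have k2 : (y / x) ^ (1 + f) * qV ≤ qB := by
    have h1 : qA * (y / x) ^ (1 + f) * qV ≤ qA * qB :=
      (mul_le_mul_of_nonneg_right k1 pV).trans hSM'
    rw [mul_assoc] at h1
    exact le_of_mul_le_mul_left h1 pA0
  have k3 : (x / y) ^ (1 + f) * (y / x) ^ (1 + f) = 1 := by
    rw [← Real.mul_rpow pxy.le pyx.le, div_mul_div_comm, mul_comm y x,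
      div_self (mul_pos px py).ne', Real.one_rpow]
  have k4 : qV ≤ qB * (x / y) ^ (1 + f) := by
    have h1 : (x / y) ^ (1 + f) * ((y / x) ^ (1 + f) * qV) ≤ (x / y) ^ (1 + f) * qB :=
      mul_le_mul_of_nonneg_left k2 (Real.rpow_nonneg pxy.le _)
    rw [← mul_assoc, k3, one_mul] at h1
    linarith
  have k5 : (x / y) ^ (1 + f) = x / y * (x / y) ^ f := by
    rw [Real.rpow_add pxy, Real.rpow_one]
  calc qV * y ≤ qB * (x / y) ^ (1 + f) * y := mul_le_mul_of_nonneg_right k4 py.le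
    _ = x * qB * (x / y) ^ f := by
        rw [k5]
        field_simp
    _ ≤ (q ^ 2 + 1152 * τ ^ 2 / δ ^ 4) * ((q + 48 * τ / δ ^ 2) / y) ^ f := by
        apply mul_le_mul hE _ (Real.rpow_nonneg pxy.le _) (le_trans (by positivity) hE)
        exact Real.rpow_le_rpow pxy.le (div_le_div_of_nonneg_right hE' py.le) hf0

end Pool.Agent.Q96.HM
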