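import Pool.Agent.Q75.HM.Stm

set_option autoImplicit false

namespace Pool.Agent.Q96.HM

open Complex Set Metric Filter Topology Pool.Agent.Q75.HM

open scoped Real ComplexConjugate

theorem t_PA : S_PA := by
  intro φ t τ δ hδ ht ht16 hτ hτ16 hd hmap h0 N P hN hP
  have hsch : ∀ z ∈ ball (t : ℂ) δ, ‖φ z‖ ≤ ‖z - t‖ / δ := by
    intro z hz
    have h1 : MapsTo φ (ball (t : ℂ) δ) (closedBall (φ t) 1) := by
      rw [h0]
      exact hmap.mono_right ball_subset_closedBall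
    have h2 := dist_le_div_mul_dist_of_mapsTo_ball hd h1 hz
    rw [h0, dist_zero_right, dist_eq_norm, one_div, inv_mul_eq_div] at h2
    exact h2
  have htn : ‖(t : ℂ)‖ = t := by rw [Complex.norm_real, Real.norm_of_nonneg ht]
  have hB : ∀ u : ℂ, ‖u‖ < δ / 4 → (2 * u ∈ ball (t : ℂ) δ ∧ ‖φ (2 * u)‖ ≤ 9 / 16) ∧
      ((t : ℂ) + u ∈ ball (t : ℂ) δ ∧ ‖φ (t + u)‖ ≤ 1 / 4) := by
    intro u hu
    have e1 : ‖2 * u - t‖ ≤ 9 / 16 * δ := by
      calc ‖2 * u - t‖ ≤ ‖2 * u‖ + ‖(t : ℂ)‖ := norm_sub_le _ _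
        _ = 2 * ‖u‖ + t := by rw [norm_mul, htn]; norm_num
        _ ≤ 9 / 16 * δ := by linarith
    have m1 : 2 * u ∈ ball (t : ℂ) δ := by
      rw [mem_ball, dist_eq_norm]
      linarith
    have e2 : ‖(t : ℂ) + u - t‖ ≤ 1 / 4 * δ := by
      rw [add_sub_cancel_left]
      linarith
    have m2 : (t : ℂ) + u ∈ ball (t : ℂ) δ := by
      rw [mem_ball, dist_eq_norm]
      linarith
    refine ⟨⟨m1, (hsch _ m1).trans ?_⟩, ⟨m2, (hsch _ m2).trans ?_⟩⟩
    · rw [div_le_iff₀ hδ]; exact e1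
    · rw [div_le_iff₀ hδ]; exact e2
  have hNt : N t = 0 := by
    rw [hN]
    rw [two_mul, sub_self]
  have hdφ2 : DifferentiableOn ℂ (fun u : ℂ => φ (2 * u)) (ball 0 (δ / 4)) := by
    intro u hu
    rw [mem_ball_zero_iff] at hu
    have h1 := hd.differentiableAt (isOpen_ball.mem_nhds (hB u hu).1.1)
    exact (h1.comp u (by fun_prop : DifferentiableAt ℂ (fun u : ℂ => 2 * u) u)).differentiableWithinAt
  have hdφ1 : DifferentiableOn ℂ (fun u : ℂ => φ (t + u)) (ball 0 (δ / 4)) := by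
    intro u hu
    rw [mem_ball_zero_iff] at hu
    have h1 := hd.differentiableAt (isOpen_ball.mem_nhds (hB u hu).2.1)
    exact (h1.comp u (by fun_prop : DifferentiableAt ℂ (fun u : ℂ => (t : ℂ) + u) u)).differentiableWithinAt
  have hNd : DifferentiableOn ℂ N (ball 0 (δ / 4)) := by
    have : N = fun u => φ (2 * u) - φ (t + u) := funext hN
    rw [this]
    exact hdφ2.sub hdφ1
  have htb : (t : ℂ) ∈ ball (0 : ℂ) (δ / 4) := by
    rw [mem_ball_zero_iff, htn]
    linarith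
  have hNs : DifferentiableOn ℂ (dslope N t) (ball 0 (δ / 4)) :=
    (differentiableOn_dslope (isOpen_ball.mem_nhds htb)).2 hNd
  have hNb : ∀ u : ℂ, ‖u‖ < δ / 4 → ‖N u‖ ≤ 13 / 16 := by
    intro u hu
    obtain ⟨⟨_, h1⟩, ⟨_, h2⟩⟩ := hB u hu
    rw [hN]
    have := norm_sub_le (φ (2 * u)) (φ (t + u))
    linarith
  have hslope : ∀ u : ℂ, ‖u‖ < δ / 4 → ‖dslope N t u‖ ≤ 51 / 10 / δ := by
    intro u hu
    set r : ℝ := (max ‖u‖ (23 / 100 * δ) + δ / 4) / 2 with hr
    have hm1 : ‖u‖ ≤ max ‖u‖ (23 / 100 * δ) := le_max_left _ _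
    have hm2 : 23 / 100 * δ ≤ max ‖u‖ (23 / 100 * δ) := le_max_right _ _
    have hm3 : max ‖u‖ (23 / 100 * δ) < δ / 4 := max_lt hu (by linarith)
    have hr1 : ‖u‖ < r := by rw [hr]; linarith
    have hr2 : 23 / 100 * δ < r := by rw [hr]; linarith
    have hr3 : r < δ / 4 := by rw [hr]; linarith
    have hr0 : 0 < r := by nlinarith
    have hsub : closure (ball (0 : ℂ) r) ⊆ ball (0 : ℂ) (δ / 4) := by
      rw [closure_ball _ hr0.ne']
      exact closedBall_subset_ball hr3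
    have hdc : DiffContOnCl ℂ (dslope N t) (ball 0 r) :=
      (hNs.mono hsub).diffContOnCl
    apply Complex.norm_le_of_forall_mem_frontier_norm_le (isBounded_ball) hdc _
      (subset_closure (by rw [mem_ball_zero_iff]; exact hr1))
    intro w hw
    rw [frontier_ball _ hr0.ne', mem_sphere_zero_iff_norm] at hw
    have hwt : 168 / 1000 * δ ≤ ‖w - t‖ - 1 / 2000 * δ := by
      have := norm_sub_norm_le w (t : ℂ)
      rw [hw, htn] at this
      nlinarith
    have hwt' : 1675 / 10000 * δ ≤ ‖w - t‖ := by nlinarith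
    have hwt0 : 0 < ‖w - t‖ := by nlinarith
    have hne : w ≠ t := by
      intro h
      rw [h, sub_self, norm_zero] at hwt0
      exact lt_irrefl _ hwt0
    rw [dslope_of_ne _ hne, slope_def_field, hNt, sub_zero, norm_div, div_le_div_iff₀ hwt0 hδ]
    have hb := hNb w (by rw [hw]; exact hr3)
    nlinarith
  have hden : ∀ u : ℂ, ‖u‖ < δ / 4 → 55 / 64 ≤ ‖1 - φ (t + u) * φ (2 * u)‖ := by
    intro u hu
    obtain ⟨⟨_, h1⟩, ⟨_, h2⟩⟩ := hB u hu
    have h3 := norm_sub_norm_le (1 : ℂ) (φ (t + u) * φ (2 * u))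
    rw [norm_one, norm_mul] at h3
    have h4 : ‖φ (t + u)‖ * ‖φ (2 * u)‖ ≤ 1 / 4 * (9 / 16) :=
      mul_le_mul h2 h1 (norm_nonneg _) (by norm_num)
    linarith
  have hPb : ∀ u : ℂ, ‖u‖ < δ / 4 → ‖P u‖ ≤ 6 / δ := by
    intro u hu
    rw [hP, norm_div]
    have h1 := hslope u hu
    have h2 := hden u hu
    rw [div_le_div_iff₀ (by linarith) hδ]
    rw [le_div_iff₀ hδ] at h1
    linarith
  have hPd : DifferentiableOn ℂ P (ball 0 (δ / 4)) := by
    have : P = fun u => dslope N t u / (1 - φ (t + u) * φ (2 * u)) := funext hP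
    rw [this]
    refine hNs.div ((differentiableOn_const 1).sub (hdφ1.mul hdφ2)) ?_
    intro u hu h
    rw [mem_ball_zero_iff] at hu
    have := hden u hu
    rw [h, norm_zero] at this
    norm_num at this
  have hτn : ‖(τ : ℂ)‖ = τ := by rw [Complex.norm_real, Real.norm_of_nonneg hτ]
  have hτb : (τ : ℂ) ∈ ball (0 : ℂ) (δ / 4) := by
    rw [mem_ball_zero_iff, hτn]
    linarith
  have h0b : ‖(0 : ℂ)‖ < δ / 4 := by rw [norm_zero]; linarith
  constructor
  · -- second order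
    set R : ℂ → ℂ := fun u => P u * P (-u) - P 0 ^ 2 with hR
    have hPn : DifferentiableOn ℂ (fun u => P (-u)) (ball 0 (δ / 4)) := by
      refine hPd.comp differentiable_neg.differentiableOn ?_
      intro u hu
      rw [mem_ball_zero_iff] at hu ⊢
      rwa [norm_neg]
    have hRd : DifferentiableOn ℂ R (ball 0 (δ / 4)) := (hPd.mul hPn).sub (differentiableOn_const _)
    have hR0 : R 0 = 0 := by simp only [hR, neg_zero]; ring
    have hRm : MapsTo R (ball 0 (δ / 4)) (closedBall (R 0) (72 / δ ^ 2)) := by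
      intro u hu
      rw [mem_ball_zero_iff] at hu
      rw [hR0, mem_closedBall_zero_iff]
      have h1 := hPb u hu
      have h2 := hPb (-u) (by rwa [norm_neg])
      have h3 := hPb 0 h0b
      calc ‖P u * P (-u) - P 0 ^ 2‖ ≤ ‖P u * P (-u)‖ + ‖P 0 ^ 2‖ := norm_sub_le _ _
        _ = ‖P u‖ * ‖P (-u)‖ + ‖P 0‖ ^ 2 := by rw [norm_mul, norm_pow]
        _ ≤ 6 / δ * (6 / δ) + (6 / δ) ^ 2 := by gcongr
        _ = 72 / δ ^ 2 := by ring
    have hder : HasDerivAt R 0 0 := by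
      have d1 : HasDerivAt P (deriv P 0) 0 :=
        (hPd.differentiableAt (isOpen_ball.mem_nhds (by rw [mem_ball_zero_iff]; exact h0b))).hasDerivAt
      have d1' : HasDerivAt P (deriv P 0) (-0) := by rw [neg_zero]; exact d1
      have d2 : HasDerivAt (fun u => P (-u)) (deriv P 0 * (-1)) 0 :=
        HasDerivAt.comp (0 : ℂ) d1' (hasDerivAt_neg (0 : ℂ))
      have d3 : HasDerivAt R (deriv P 0 * P (-0) + P 0 * (deriv P 0 * (-1))) 0 :=
        (d1.mul d2).sub_const (P 0 ^ 2)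
      have d4 : deriv P 0 * P (-0) + P 0 * (deriv P 0 * (-1)) = 0 := by
        rw [neg_zero]
        ring
      rwa [d4] at d3
    have hlo : (fun u => R u - R 0) =o[𝓝 (0 : ℂ)] fun w => ‖w - 0‖ ^ 1 := by
      have := hasDerivAt_iff_isLittleO.1 hder
      simp only [smul_zero, sub_zero, pow_one] at this ⊢
      exact this.norm_right
    have hfin := dist_le_mul_div_pow_of_mapsTo_ball_of_isLittleO hRd hRm hlo hτb
    rw [hR0, dist_zero_right, dist_zero_right, hτn] at hfin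
    refine hfin.trans (le_of_eq ?_)
    have hδ0 : δ ≠ 0 := hδ.ne'
    rw [div_div_eq_mul_div, div_pow, div_mul_div_comm, mul_pow]
    rw [div_eq_div_iff (by positivity) (by positivity)]
    ring
  · have hPm : MapsTo P (ball 0 (δ / 4)) (closedBall (P 0) (12 / δ)) := by
      intro u hu
      rw [mem_ball_zero_iff] at hu
      rw [mem_closedBall, dist_eq_norm]
      have h1 := hPb u hu
      have h3 := hPb 0 h0b
      calc ‖P u - P 0‖ ≤ ‖P u‖ + ‖P 0‖ := norm_sub_le _ _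
        _ ≤ 6 / δ + 6 / δ := add_le_add h1 h3
        _ = 12 / δ := by ring
    have hfin := dist_le_div_mul_dist_of_mapsTo_ball hPd hPm hτb
    rw [dist_eq_norm, dist_zero_right, hτn] at hfin
    refine hfin.trans (le_of_eq ?_)
    have hδ0 : δ ≠ 0 := hδ.ne'
    have e : 12 / δ / (δ / 4) = 48 / δ ^ 2 := by
      rw [div_div_eq_mul_div, div_mul_eq_mul_div, div_div, pow_two]
      norm_num
    rw [e, div_mul_eq_mul_div]

end Pool.Agent.Q96.HM
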