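import Pool.Agent.Q75.HM.Stm

set_option autoImplicit false

namespace Pool.Agent.Q96.HM

open Complex Set Metric Filter Topology Pool.Agent.Q75.HM

open scoped Real ComplexConjugate

/-- uniqueness of Riemann maps -/
lemma rm_unique {Ω : Set ℂ} {p : ℂ} {φ ψ : ℂ → ℂ} (hΩ : IsOpen Ω) (hp : p ∈ Ω) (hφ : RM Ω p φ)
    (hψ : RM Ω p ψ) (hd : deriv φ p = deriv ψ p) : EqOn φ ψ Ω := by
  obtain ⟨h1, h2, h3, h4⟩ := hφ
  obtain ⟨k1, k2, k3, k4⟩ := hψ
  have hleft : ∀ z ∈ Ω, Function.invFunOn φ Ω (φ z) = z := fun z hz =>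
    h2.injOn.leftInvOn_invFunOn hz
  have hder : ∀ w ∈ Ω, HasStrictDerivAt (Function.invFunOn φ Ω) (deriv φ w)⁻¹ (φ w) := by
    intro w hw
    have hs : HasStrictDerivAt φ (deriv φ w) w :=
      ((h1.analyticAt (hΩ.mem_nhds hw)).hasStrictDerivAt)
    apply hs.to_local_left_inverse (h3 w hw)
    filter_upwards [hΩ.mem_nhds hw] with x hx
    exact hleft x hx
  have hcomp : ∀ w ∈ Ω, HasDerivAt (fun z => ψ (Function.invFunOn φ Ω z))
      (deriv ψ w * (deriv φ w)⁻¹) (φ w) := by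
    intro w hw
    have e1 := (hder w hw).hasDerivAt
    have e2 : HasDerivAt ψ (deriv ψ w) (Function.invFunOn φ Ω (φ w)) := by
      rw [hleft w hw]
      exact (k1.differentiableAt (hΩ.mem_nhds hw)).hasDerivAt
    exact e2.comp (φ w) e1
  have hdiff : DifferentiableOn ℂ (fun z => ψ (Function.invFunOn φ Ω z)) (ball 0 1) := by
    intro z hz
    obtain ⟨w, hw, rfl⟩ := h2.surjOn hz
    exact (hcomp w hw).differentiableAt.differentiableWithinAt
  have h00 : ψ (Function.invFunOn φ Ω 0) = 0 := by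
    rw [← h4, hleft p hp, k4, h4]
  have hmaps : MapsTo (fun z => ψ (Function.invFunOn φ Ω z)) (ball 0 1)
      (closedBall ((fun z => ψ (Function.invFunOn φ Ω z)) 0) 1) := by
    intro z hz
    obtain ⟨w, hw, rfl⟩ := h2.surjOn hz
    simp only [h00, hleft w hw]
    exact ball_subset_closedBall (k2.mapsTo hw)
  have hd0 : deriv (fun z => ψ (Function.invFunOn φ Ω z)) 0 = 1 := by
    have := (hcomp p hp).deriv
    rw [h4] at this
    rw [this, hd]
    exact mul_inv_cancel₀ (k3 p hp)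
  have haff := affine_of_mapsTo_ball_of_norm_dslope_eq_div (c := (0 : ℂ)) (R₁ := 1) (R₂ := 1)
    (z₀ := (0 : ℂ)) hdiff hmaps (by simp) (by rw [dslope_same, hd0]; simp)
  intro z hz
  have h5 := haff (h2.mapsTo hz)
  simp only [dslope_same, hd0, h00, hleft z hz] at h5
  rw [h5]
  simp

theorem t_SYC : S_SYC := by
  intro Ω t hDm hsym ht
  obtain ⟨hΩ, hsc, hne⟩ := hDm
  obtain ⟨φ0, h1, h2, h3, h4⟩ := Pool.Agent.Helper405.Riemann.riemann hΩ hsc hne ht
  set d : ℂ := deriv φ0 t with hd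
  have hd0 : d ≠ 0 := h3 t ht
  have hdn : (0 : ℝ) < ‖d‖ := norm_pos_iff.2 hd0
  set c : ℂ := conj d / (‖d‖ : ℂ) with hc
  have hcn : ‖c‖ = 1 := by
    rw [hc, norm_div, RCLike.norm_conj, Complex.norm_real, norm_norm, div_self hdn.ne']
  have hc0 : c ≠ 0 := by
    intro h
    rw [h, norm_zero] at hcn
    exact zero_ne_one hcn
  have hcd : c * d = (‖d‖ : ℂ) := by
    rw [hc, div_mul_eq_mul_div, Complex.conj_mul', div_eq_iff (by exact_mod_cast hdn.ne')]
    ring
  set φ : ℂ → ℂ := fun z => c * φ0 z with hφ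
  have hderφ : ∀ z ∈ Ω, HasDerivAt φ (c * deriv φ0 z) z := fun z hz =>
    ((h1.differentiableAt (hΩ.mem_nhds hz)).hasDerivAt).const_mul c
  have hRM : RM Ω t φ := by
    refine ⟨h1.const_mul c, ⟨?_, ?_, ?_⟩, ?_, ?_⟩
    · intro z hz
      have := h2.mapsTo hz
      rw [mem_ball_zero_iff] at this ⊢
      rw [hφ, norm_mul, hcn, one_mul]
      exact this
    · intro z hz w hw h
      exact h2.injOn hz hw (mul_left_cancel₀ hc0 h)
    · intro y hy
      have hy' : c⁻¹ * y ∈ ball (0 : ℂ) 1 := by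
        rw [mem_ball_zero_iff] at hy ⊢
        rw [norm_mul, norm_inv, hcn, inv_one, one_mul]
        exact hy
      obtain ⟨w, hw, hwy⟩ := h2.surjOn hy'
      refine ⟨w, hw, ?_⟩
      change c * φ0 w = y
      rw [hwy, mul_inv_cancel_left₀ hc0]
    · intro z hz
      rw [(hderφ z hz).deriv]
      exact mul_ne_zero hc0 (h3 z hz)
    · change c * φ0 t = 0
      rw [h4, mul_zero]
  have hdt : deriv φ t = (‖d‖ : ℂ) := by
    rw [(hderφ t ht).deriv, hcd]
  -- the conjugate map
  set ψ : ℂ → ℂ := fun z => conj (φ (conj z)) with hψ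
  have hderψ : ∀ z ∈ Ω, HasDerivAt ψ (conj (deriv φ (conj z))) z := by
    intro z hz
    have e1 : HasDerivAt φ (deriv φ (conj z)) (conj z) :=
      ((hRM.1.differentiableAt (hΩ.mem_nhds (hsym z hz))).hasDerivAt)
    have e2 := e1.conj_conj
    rw [Complex.conj_conj] at e2
    exact e2
  have hRM2 : RM Ω t ψ := by
    refine ⟨fun z hz => (hderψ z hz).differentiableAt.differentiableWithinAt, ⟨?_, ?_, ?_⟩, ?_, ?_⟩
    · intro z hz
      have := hRM.2.1.mapsTo (hsym z hz)
      rw [mem_ball_zero_iff] at this ⊢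
      rw [hψ, RCLike.norm_conj]
      exact this
    · intro z hz w hw h
      have e1 : φ (conj z) = φ (conj w) := (starRingEnd ℂ).injective h
      have e2 := hRM.2.1.injOn (hsym z hz) (hsym w hw) e1
      exact (starRingEnd ℂ).injective e2
    · intro y hy
      have hy' : conj y ∈ ball (0 : ℂ) 1 := by
        rw [mem_ball_zero_iff] at hy ⊢
        rwa [RCLike.norm_conj]
      obtain ⟨w, hw, hwy⟩ := hRM.2.1.surjOn hy'
      refine ⟨conj w, hsym w hw, ?_⟩
      change conj (φ (conj (conj w))) = y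
      rw [Complex.conj_conj, hwy, Complex.conj_conj]
    · intro z hz
      rw [(hderψ z hz).deriv]
      intro h
      exact hRM.2.2.1 _ (hsym z hz) ((map_eq_zero (starRingEnd ℂ)).1 h)
    · change conj (φ (conj (t : ℂ))) = 0
      rw [Complex.conj_ofReal, hRM.2.2.2, map_zero]
  have hdd : deriv φ t = deriv ψ t := by
    rw [(hderψ t ht).deriv, Complex.conj_ofReal, hdt, Complex.conj_ofReal]
  have huniq := rm_unique hΩ ht hRM hRM2 hdd
  refine ⟨φ, hRM, ?_, ?_, ?_⟩
  · rw [hdt, Complex.ofReal_re]; exact hdn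
  · rw [hdt, Complex.ofReal_im]
  · intro z hz
    have := huniq (hsym z hz)
    rw [this]
    change conj (φ (conj (conj z))) = _
    rw [Complex.conj_conj]

end Pool.Agent.Q96.HM
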