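import Pool.Agent.Q75.HM.Stm

set_option autoImplicit false

namespace Pool.Agent.Q96.HM

open Complex Set Metric Filter Topology Pool.Agent.Q75.HM

open scoped Real ComplexConjugate

lemma Wd_vert {G : Set ℂ} {m : ℝ} (hG : LD G) {z w : ℂ} (hz : z ∈ Wd G m) (hre : w.re = z.re)
    (him : |w.im| ≤ |z.im|) : w ∈ Wd G m := by
  rcases hz with (⟨h1, h2⟩ | ⟨h1, h2⟩) | ⟨y, h1, h2⟩
  · left; left
    exact ⟨by rw [hre]; exact h1, hG.2 z h2 w hre.le him⟩
  · left; right
    refine ⟨by rw [hre]; exact h1, hG.2 (rf m z) h2 (rf m w) ?_ ?_⟩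
    · simp only [rf]; rw [hre]
    · simp only [rf]; exact him
  · right
    exact ⟨y, lt_of_le_of_lt him h1, h2⟩

lemma isOpen_Wd {G : Set ℂ} {m : ℝ} (hG : LD G) : IsOpen (Wd G m) := by
  have hrf : Continuous (rf m) := by
    have : rf m = fun z : ℂ => ((2 * m - z.re : ℝ) : ℂ) + (z.im : ℂ) * I := by
      funext z
      apply Complex.ext <;> simp [rf]
    rw [this]
    fun_prop
  refine ((?_ : IsOpen _).union ?_).union ?_
  · exact (isOpen_lt Complex.continuous_re continuous_const).inter hG.1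
  · exact (isOpen_lt continuous_const Complex.continuous_re).inter (hG.1.preimage hrf)
  · have : {z : ℂ | ∃ y, |z.im| < y ∧ HS m y ⊆ G} =
        ⋃ y ∈ {y : ℝ | HS m y ⊆ G}, {z : ℂ | |z.im| < y} := by
      ext z
      simp only [mem_ofPred_eq, mem_iUnion, exists_prop]
      constructor
      · rintro ⟨y, h1, h2⟩; exact ⟨y, h2, h1⟩
      · rintro ⟨y, h1, h2⟩; exact ⟨y, h2, h1⟩
    rw [this]
    exact isOpen_biUnion fun y _ => isOpen_lt (Complex.continuous_im.abs) continuous_const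

/-- a set of complex numbers which contains the real axis and is vertically star shaped is simply
connected -/
lemma sc_of_vert {X : Set ℂ} (hre : ∀ x : ℝ, (x : ℂ) ∈ X)
    (hv : ∀ z ∈ X, ∀ w : ℂ, w.re = z.re → |w.im| ≤ |z.im| → w ∈ X) : IsSimplyConnected X := by
  let f : C(X, ℝ) := ⟨fun z => (z : ℂ).re, by fun_prop⟩
  let g : C(ℝ, X) := ⟨fun x => ⟨(x : ℂ), hre x⟩, by fun_prop⟩
  have hmem : ∀ (s : unitInterval) (z : X), (((z : ℂ).re : ℂ) + ((s : ℝ) : ℂ) * ((z : ℂ).im : ℂ) * I) ∈ X := by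
    intro s z
    apply hv z z.2
    · simp
    · have h1 : ((((z : ℂ).re : ℂ) + ((s : ℝ) : ℂ) * ((z : ℂ).im : ℂ) * I)).im = (s : ℝ) * (z : ℂ).im := by
        simp
      rw [h1, abs_mul, abs_of_nonneg s.2.1]
      exact mul_le_of_le_one_left (abs_nonneg _) s.2.2
  have hH : (g.comp f).Homotopic (ContinuousMap.id X) := by
    refine ⟨⟨⟨fun p => ⟨((p.2 : ℂ).re : ℂ) + ((p.1 : ℝ) : ℂ) * ((p.2 : ℂ).im : ℂ) * I, hmem p.1 p.2⟩, ?_⟩,
      ?_, ?_⟩⟩
    · apply Continuous.subtype_mk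
      fun_prop
    · intro z
      apply Subtype.ext
      simp [f, g]
    · intro z
      apply Subtype.ext
      simp [Complex.re_add_im]
  have hK : (f.comp g).Homotopic (ContinuousMap.id ℝ) := by
    have : f.comp g = ContinuousMap.id ℝ := by
      ext x
      simp [f, g]
    rw [this]
  let e : ContinuousMap.HomotopyEquiv X ℝ := ⟨f, g, hH, hK⟩
  have hc : ContractibleSpace X := e.contractibleSpace
  exact SimplyConnectedSpace.ofContractible X

theorem t_WD : S_WD := by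
  intro G m c M hG hc hHS hM
  have hstrip : ∀ z : ℂ, |z.im| < c → z ∈ Wd G m := fun z hz => Or.inr ⟨c, hz, hHS⟩
  have hbd : ∀ z ∈ Wd G m, |z.im| < M := by
    rintro z ((⟨h1, h2⟩ | ⟨h1, h2⟩) | ⟨y, h1, h2⟩)
    · exact hM z h2
    · have := hM (rf m z) h2
      simpa [rf] using this
    · have : (⟨m - 1, z.im⟩ : ℂ) ∈ G := h2 ⟨by simp, h1⟩
      have h3 := hM (⟨m - 1, z.im⟩ : ℂ) this
      simpa using h3
  refine ⟨⟨isOpen_Wd hG, ?_, ?_⟩, hstrip, ?_, hbd⟩
  · apply sc_of_vert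
    · intro x
      apply hstrip
      simpa using hc
    · intro z hz w h1 h2
      exact Wd_vert hG hz h1 h2
  · intro h
    have h1 : ((M : ℂ) * I) ∈ Wd G m := by rw [h]; exact mem_univ _
    have h2 := hbd _ h1
    have h3 : ((M : ℂ) * I).im = M := by simp
    rw [h3] at h2
    exact absurd h2 (not_lt.2 (le_abs_self M))
  · intro z hz
    refine ⟨Wd_vert hG hz (by simp) (by simp), ?_⟩
    rcases hz with (⟨h1, h2⟩ | ⟨h1, h2⟩) | ⟨y, h1, h2⟩
    · left; right
      refine ⟨by simp only [rf]; linarith, ?_⟩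
      have : rf m (rf m z) = z := by
        apply Complex.ext <;> simp [rf]
      rw [this]; exact h2
    · left; left
      exact ⟨by simp only [rf]; linarith, h2⟩
    · right
      exact ⟨y, h1, h2⟩

end Pool.Agent.Q96.HM
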